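import Pool.Agent.W941.RP.Stm

/-!
RP-CONV: coefficients of products
-/

namespace Pool.Agent.W55.RP

open MvPolynomial Pool.Agent.W941.RP

set_option autoImplicit false

lemma mon_apply {d : ℕ} (m : ℕ) (S : Finset (Fin d)) (j : Fin d) :
    (mon m S) j = if j ∈ S then m else 0 := by
  unfold mon
  rw [Finsupp.finsetSum_apply]
  simp only [Finsupp.single_apply]
  rw [Finset.sum_ite_eq' S j (fun _ => m)]

theorem conv : ConvStmt := by
  intro d m hm p q S hp
  rw [coeff_mul]
  symm
  refine Finset.sum_of_injOn (fun T => (mon m T, mon m (S \ T))) ?_ ?_ ?_ ?_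
  · intro T _ T' _ h
    have h1 : mon m T = mon m T' := (Prod.mk.injEq _ _ _ _ ▸ h : _ ∧ _).1
    ext j
    have h2 : (mon m T) j = (mon m T') j := by rw [h1]
    rw [mon_apply, mon_apply] at h2
    by_cases hT : j ∈ T <;> by_cases hT' : j ∈ T' <;> simp [hT, hT'] at h2 ⊢ <;> omega
  · intro T hT
    have hT' : T ⊆ S := by simpa using hT
    simp only [Finset.mem_coe, Finset.HasAntidiagonal.mem_antidiagonal]
    ext j
    rw [Finsupp.add_apply, mon_apply, mon_apply, mon_apply]
    by_cases h1 : j ∈ T
    · have := hT' h1
      simp [h1, this]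
    · by_cases h2 : j ∈ S <;> simp [h1, h2]
  · rintro ⟨a, b⟩ hab hne
    rw [Finset.HasAntidiagonal.mem_antidiagonal] at hab
    simp only at hab
    by_contra hcon
    have ha : coeff a p ≠ 0 := by
      intro h0
      apply hcon
      simp only [h0, zero_mul]
    have hdiv := hp a ha
    apply hne
    refine ⟨S.filter (fun j => a j = m), ?_, ?_⟩
    · simp only [Finset.mem_coe, Finset.mem_powerset]
      exact Finset.filter_subset _ _
    have hj : ∀ j, a j + b j = if j ∈ S then m else 0 := by
      intro j
      rw [← mon_apply, ← hab, Finsupp.add_apply]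
    have h01 : ∀ j, a j = if j ∈ S.filter (fun j => a j = m) then m else 0 := by
      intro j
      have h1 := hj j
      by_cases hS : j ∈ S
      · rw [if_pos hS] at h1
        by_cases hm' : a j = m
        · rw [if_pos (Finset.mem_filter.mpr ⟨hS, hm'⟩)]
          exact hm'
        · have hnF : j ∉ S.filter (fun j => a j = m) := fun h => hm' (Finset.mem_filter.mp h).2
          rw [if_neg hnF]
          obtain ⟨c, hc⟩ := hdiv j
          rcases Nat.eq_zero_or_pos c with h0 | h0
          · rw [hc, h0, mul_zero]
          · exfalso
            have : m ≤ a j := by rw [hc]; exact Nat.le_mul_of_pos_right m h0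
            omega
      · rw [if_neg hS] at h1
        have hnF : j ∉ S.filter (fun j => a j = m) := fun h => hS (Finset.mem_filter.mp h).1
        rw [if_neg hnF]
        omega
    refine Prod.ext ?_ ?_
    · ext j
      simp only
      rw [mon_apply]
      exact (h01 j).symm
    · ext j
      simp only
      rw [mon_apply]
      have h1 := hj j
      have h2 := h01 j
      by_cases hS : j ∈ S
      · by_cases hF : j ∈ S.filter (fun j => a j = m)
        · rw [if_pos hF] at h2
          rw [if_pos hS] at h1
          rw [if_neg (fun h => (Finset.mem_sdiff.mp h).2 hF)]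
          omega
        · rw [if_neg hF] at h2
          rw [if_pos hS] at h1
          rw [if_pos (Finset.mem_sdiff.mpr ⟨hS, hF⟩)]
          omega
      · rw [if_neg hS] at h1
        rw [if_neg (fun h => hS (Finset.mem_sdiff.mp h).1)]
        omega
  · intro T _
    rfl

end Pool.Agent.W55.RP
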